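import Pool.Agent.Helper83.Rel.Defs
import Pool.Agent.Helper43.CB.Start

/-!
# T-REL, pieces R3 and R4
-/

set_option autoImplicit false

namespace Pool.Agent.Helper43.Rel

open NumberField Pool.Agent.Helper4.CB Pool.Agent.Helper69.CB Pool.Agent.Helper83.Rel

/-- **R3.** for every element `c` of the ring, `J` large: integral at all points with integral
coordinates (coefficients of one polynomial expression of `c` in the `τ l`) -/
theorem int_of_gen {K : Type} [Field K] [NumberField K] {R : Type} [CommRing R]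
    [Algebra K R] {N : ℕ} (τ : Fin N → R) (hgen : Algebra.adjoin K (Set.range τ) = ⊤) (c : R) :
    ∃ J0 : ℕ, ∀ J, J0 ≤ J → ∀ φ : R →ₐ[K] K, ∀ p : Pl K, Bad J p → (∀ l, vl p (φ (τ l)) ≤ 1) →
      vl p (φ c) ≤ 1 := by
  classical
  have hc : c ∈ Algebra.adjoin K (Set.range τ) := by rw [hgen]; exact Algebra.mem_top
  rw [Algebra.adjoin_range_eq_range_aeval] at hc
  obtain ⟨P, rfl⟩ := (AlgHom.mem_range _).1 hc
  obtain ⟨J0, hJ0⟩ := Pool.Agent.Helper43.CB.start K (P.support.image fun m => P.coeff m) 0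
  refine ⟨J0, fun J hJ φ p hp hl => ?_⟩
  have h1 : φ (MvPolynomial.aeval τ P) =
      ∑ m ∈ P.support, P.coeff m * ∏ l, φ (τ l) ^ m l := by
    rw [MvPolynomial.aeval_def, MvPolynomial.eval₂_eq', map_sum]
    refine Finset.sum_congr rfl fun m _ => ?_
    rw [map_mul, map_prod, AlgHom.commutes]
    simp only [map_pow]
    rfl
  rw [h1]
  refine Valuation.map_sum_le _ fun m hm => ?_
  rw [map_mul, map_prod]
  have h2 : vl p (P.coeff m) = 1 :=
    (hJ0 J hJ p hp).2 _ (Finset.mem_image_of_mem _ hm) (MvPolynomial.mem_support_iff.1 hm)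
  rw [h2, one_mul]
  refine Finset.prod_le_one' fun l _ => ?_
  rw [map_pow]
  exact pow_le_one' (hl l) _

/-- R3 for a finite set -/
theorem int_of_gen_finset {K : Type} [Field K] [NumberField K] {R : Type} [CommRing R]
    [Algebra K R] {N : ℕ} (τ : Fin N → R) (hgen : Algebra.adjoin K (Set.range τ) = ⊤)
    (C : Set R) (hC : C.Finite) :
    ∃ J0 : ℕ, ∀ J, J0 ≤ J → ∀ φ : R →ₐ[K] K, ∀ p : Pl K, Bad J p → (∀ l, vl p (φ (τ l)) ≤ 1) →
      ∀ c ∈ C, vl p (φ c) ≤ 1 := by
  classical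
  choose J0 hJ0 using fun c : R => int_of_gen τ hgen c
  refine ⟨∑ c ∈ hC.toFinset, J0 c, fun J hJ φ p hp hl c hc => ?_⟩
  refine hJ0 c J ?_ φ p hp hl
  exact (Finset.single_le_sum (f := J0) (fun _ _ => Nat.zero_le _)
    (hC.mem_toFinset.2 hc)).trans hJ

/-- **R4.** no common zero on `T`, finitely many polynomials: unit content at all bad places and all
normalised points, `J` large (R3 for the coefficients and for the multipliers in
`τ l ^ s = sum of multiples of coefficients`) -/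
theorem unitAt_of_noZero {K : Type} [Field K] [NumberField K] {R : Type} [CommRing R]
    [Algebra K R] {N : ℕ} (τ : Fin N → R) (hgen : Algebra.adjoin K (Set.range τ) = ⊤) {n : ℕ}
    (T : Finset (MvPolynomial (Fin n) R)) (hT : NoZero τ (T : Set (MvPolynomial (Fin n) R))) :
    ∃ J0 : ℕ, ∀ J, J0 ≤ J → UnitAt J (Nrm (K := K) J τ) (Coefs (T : Set (MvPolynomial (Fin n) R))) := by
  classical
  set U : Set R := Coefs (T : Set (MvPolynomial (Fin n) R)) with hU
  -- the set of coefficients is finite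
  have hfin : U.Finite := by
    have h1 : U ⊆ insert (0 : R) (((T.biUnion fun f => f.support.image fun m => f.coeff m) :
        Finset R) : Set R) := by
      rintro c ⟨f, hf, m, rfl⟩
      by_cases h0 : f.coeff m = 0
      · exact Or.inl h0
      · refine Or.inr ?_
        rw [Finset.mem_coe, Finset.mem_biUnion]
        exact ⟨f, hf, Finset.mem_image_of_mem _ (MvPolynomial.mem_support_iff.2 h0)⟩
    exact ((Finset.finite_toSet _).insert _).subset h1
  -- the multipliers
  have hmul : ∀ l, ∃ (s : ℕ) (r : R →₀ R), (r.support : Set R) ⊆ U ∧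
      τ l ^ s = r.sum fun c a => a * c := by
    intro l
    obtain ⟨s, hs⟩ := hT l
    obtain ⟨r, hr1, hr2⟩ := (Submodule.mem_span_set (R := R) (s := U)).1 hs
    refine ⟨s, r, hr1, ?_⟩
    rw [← hr2]
    rfl
  choose s r hr1 hr2 using hmul
  have hfin2 : (⋃ l, (fun c => r l c) '' U).Finite := Set.finite_iUnion fun l => hfin.image _
  obtain ⟨J1, hJ1⟩ := int_of_gen_finset τ hgen U hfin
  obtain ⟨J2, hJ2⟩ := int_of_gen_finset τ hgen _ hfin2
  refine ⟨max J1 J2, fun J hJ φ hφ p hp => ?_⟩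
  obtain ⟨hl, l, hl1⟩ := hφ p hp
  have h1 : ∀ c ∈ U, vl p (φ c) ≤ 1 := hJ1 J (le_of_max_le_left hJ) φ p hp hl
  have h2 := hJ2 J (le_of_max_le_right hJ) φ p hp hl
  refine ⟨h1, ?_⟩
  by_contra hcon
  push Not at hcon
  have h3 : ∀ c ∈ U, vl p (φ c) < 1 := fun c hc => lt_of_le_of_ne (h1 c hc) (hcon c hc)
  have h4 : vl p (φ (τ l ^ s l)) < 1 := by
    rw [hr2 l, Finsupp.sum, map_sum]
    refine Valuation.map_sum_lt _ one_ne_zero fun c hc => ?_
    rw [map_mul, map_mul]
    have h5 : vl p (φ (r l c)) ≤ 1 :=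
      h2 _ (Set.mem_iUnion.2 ⟨l, Set.mem_image_of_mem _ (hr1 l hc)⟩)
    exact lt_of_le_of_lt (mul_le_of_le_one_left' h5) (h3 c (hr1 l hc))
  rw [map_pow, map_pow, hl1, one_pow] at h4
  exact lt_irrefl _ h4

end Pool.Agent.Helper43.Rel
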