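import Pool.Agent.Helper83.Rel.Defs2

/-!
# T-REL, piece G1: Gauss lemma at a place
-/

set_option autoImplicit false

namespace Pool.Agent.Helper43.Rel

open NumberField Pool.Agent.Helper4.CB Pool.Agent.Helper69.CB Pool.Agent.Helper49.CB MvPolynomial
open Pool.Agent.Helper83.Rel

/-- units of the valuation ring -/
theorem isUnit_iff_one {K Γ : Type*} [Field K] [LinearOrderedCommGroupWithZero Γ]
    (v : Valuation K Γ) (x : v.valuationSubring) : IsUnit x ↔ v (x : K) = 1 := by
  constructor
  · intro h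
    obtain ⟨y, hy⟩ := h.exists_right_inv
    have h1 : v (x : K) * v (y : K) = 1 := by
      rw [← map_mul]
      have := congrArg (fun z : v.valuationSubring => v (z : K)) hy
      simpa using this
    have hx : v (x : K) ≤ 1 := x.2
    have hy' : v (y : K) ≤ 1 := y.2
    exact le_antisymm hx (by
      calc (1 : Γ) = v (x : K) * v (y : K) := h1.symm
        _ ≤ v (x : K) * 1 := by gcongr
        _ = v (x : K) := mul_one _)
  · intro h
    have hx0 : (x : K) ≠ 0 := by
      intro h0
      rw [h0, map_zero] at h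
      exact zero_ne_one h
    refine IsUnit.of_mul_eq_one (⟨(x : K)⁻¹, ?_⟩ : v.valuationSubring) ?_
    · rw [Valuation.mem_valuationSubring_iff, map_inv₀, h, inv_one]
    · apply Subtype.ext
      exact mul_inv_cancel₀ hx0

/-- lifting to the valuation ring -/
theorem exists_lift {K Γ : Type*} [Field K] [LinearOrderedCommGroupWithZero Γ]
    (v : Valuation K Γ) {σ : Type*} (f : MvPolynomial σ K) (hf : ∀ m, v (f.coeff m) ≤ 1) :
    ∃ f0 : MvPolynomial σ v.valuationSubring, map (algebraMap v.valuationSubring K) f0 = f := by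
  have h : f ∈ Set.range (map (algebraMap v.valuationSubring K) :
      MvPolynomial σ v.valuationSubring →+* MvPolynomial σ K) := by
    rw [mem_range_map_iff_coeffs_subset]
    intro c hc
    rw [Finset.mem_coe, mem_coeffs_iff] at hc
    obtain ⟨m, _, rfl⟩ := hc
    exact ⟨⟨f.coeff m, hf m⟩, rfl⟩
  obtain ⟨f0, hf0⟩ := h
  exact ⟨f0, hf0⟩

/-- **G1.** Gauss lemma: reduce to the residue field of the valuation -/
theorem UC_mul {K : Type} [Field K] [NumberField K] {p : Pl K} {n : ℕ}
    {f g : MvPolynomial (Fin n) K} (hf : UC p f) (hg : UC p g) : UC p (f * g) := by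
  classical
  obtain ⟨hf1, mf, hf2⟩ := hf
  obtain ⟨hg1, mg, hg2⟩ := hg
  obtain ⟨f0, hf0⟩ := exists_lift (vl p) f hf1
  obtain ⟨g0, hg0⟩ := exists_lift (vl p) g hg1
  let A := (vl p).valuationSubring
  set π := IsLocalRing.residue A with hπ
  have key : ∀ (h0 : MvPolynomial (Fin n) A) (m : Fin n →₀ ℕ),
      (map π h0).coeff m ≠ 0 ↔ vl p ((map (algebraMap A K) h0).coeff m) = 1 := by
    intro h0 m
    rw [coeff_map, coeff_map, hπ, IsLocalRing.residue_ne_zero_iff_isUnit]
    exact isUnit_iff_one (vl p) (h0.coeff m)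
  have hfne : map π f0 ≠ 0 := by
    intro h
    have h1 : (map π f0).coeff mf ≠ 0 := by
      rw [key, hf0]
      exact hf2
    rw [h, coeff_zero] at h1
    exact h1 rfl
  have hgne : map π g0 ≠ 0 := by
    intro h
    have h1 : (map π g0).coeff mg ≠ 0 := by
      rw [key, hg0]
      exact hg2
    rw [h, coeff_zero] at h1
    exact h1 rfl
  have hne : map π (f0 * g0) ≠ 0 := by
    rw [map_mul]
    exact mul_ne_zero hfne hgne
  have hfg : map (algebraMap A K) (f0 * g0) = f * g := by rw [map_mul, hf0, hg0]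
  refine ⟨fun m => ?_, ?_⟩
  · rw [← hfg, coeff_map]
    exact ((f0 * g0).coeff m).2
  · obtain ⟨m, hm⟩ := exists_coeff_ne_zero hne
    refine ⟨m, ?_⟩
    rw [← hfg]
    exact (key _ m).1 hm

end Pool.Agent.Helper43.Rel
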